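import Pool.Agent.Lib.MP_42948a_nt.KC.Union

/-!
# Kneser's theorem for finite abelian groups
-/

set_option linter.unusedSectionVars false

namespace Pool.Agent.Lib.MP_42948a_nt.KC

open Finset
open scoped Pointwise

variable {G : Type*} [CommGroup G] [Fintype G] [DecidableEq G]

theorem kemp : ∀ (n : ℕ) (A B : Finset G) (a0 b0 : G), B.card = n → a0 ∈ A → b0 ∈ B →
    ∃ C ⊆ A * B, a0 * b0 ∈ C ∧ A.card + B.card ≤ C.card + (F (st C)).card := by
  intro n
  induction n using Nat.strong_induction_on with
  | _ n ih =>
    intro A B a0 b0 hn ha0 hb0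
    by_cases hcase : ∀ a ∈ A, ∀ b ∈ B, a * b * b0⁻¹ ∈ A
    · refine ⟨A * {b0}, mul_subset_mul_left (singleton_subset_iff.2 hb0), ?_, ?_⟩
      · exact mul_mem_mul ha0 (mem_singleton_self b0)
      · have e1 : (A * {b0}).card = A.card := by
          rw [mul_singleton]
          exact card_image_of_injective _ (mul_left_injective b0)
        rw [e1]
        have e2 : B.card ≤ (F (st (A * {b0}))).card := by
          refine card_le_card_of_injOn (fun b => b * b0⁻¹) ?_ ?_
          · intro b hb
            simp only [mem_coe] at hb ⊢
            rw [mem_F]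
            apply mem_st_of
            intro x hx
            rw [mem_mul] at hx
            obtain ⟨a, ha, b', hb', rfl⟩ := hx
            rw [mem_singleton] at hb'
            subst hb'
            have := hcase a ha b hb
            have e : b * b'⁻¹ * (a * b') = (a * b * b'⁻¹) * b' := by
              rw [mul_comm (b * b'⁻¹), mul_assoc a b', mul_comm b', ← mul_assoc, ← mul_assoc]
            rw [e]
            exact mul_mem_mul this (mem_singleton_self b')
          · intro b _ b' _ hbb
            exact mul_right_cancel hbb
        omega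
    · push Not at hcase
      obtain ⟨a1, ha1, b1, hb1, hab⟩ := hcase
      set e : G := a1 * b0⁻¹ with he
      set A' : Finset G := A ∪ B.image (fun b => e * b) with hA'
      set B' : Finset G := B.filter (fun b => e * b ∈ A) with hB'
      have hb0' : b0 ∈ B' := by
        rw [hB', mem_filter]
        refine ⟨hb0, ?_⟩
        rw [he, inv_mul_cancel_right]
        exact ha1
      have hlt : B'.card < n := by
        rw [← hn]
        apply card_lt_card
        refine ⟨filter_subset _ _, fun hsub => hab ?_⟩
        have := (mem_filter.1 (hsub hb1)).2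
        have e1 : a1 * b1 * b0⁻¹ = e * b1 := by rw [he]; exact mul_right_comm _ _ _
        rw [e1]
        exact this
      obtain ⟨C, hC, hC0, hCc⟩ := ih B'.card hlt A' B' a0 b0 rfl (mem_union_left _ ha0) hb0'
      refine ⟨C, hC.trans ?_, hC0, ?_⟩
      · intro x hx
        rw [mem_mul] at hx ⊢
        obtain ⟨y, hy, b, hb, rfl⟩ := hx
        rw [hB', mem_filter] at hb
        rcases mem_union.1 hy with hy | hy
        · exact ⟨y, hy, b, hb.1, rfl⟩
        · obtain ⟨b', hb', rfl⟩ := mem_image.1 hy
          refine ⟨e * b, hb.2, b', hb', ?_⟩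
          exact mul_right_comm e b b'
      · have hcard : A'.card + B'.card = A.card + B.card := by
          have h1 := card_union_add_card_inter A (B.image (fun b => e * b))
          have h2 : (B.image (fun b => e * b)).card = B.card :=
            card_image_of_injective _ (mul_right_injective e)
          have h3 : A ∩ B.image (fun b => e * b) = B'.image (fun b => e * b) := by
            ext z
            rw [mem_inter, mem_image, mem_image]
            constructor
            · rintro ⟨hz, b, hb, rfl⟩
              exact ⟨b, mem_filter.2 ⟨hb, hz⟩, rfl⟩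
            · rintro ⟨b, hb, rfl⟩
              exact ⟨(mem_filter.1 hb).2, b, (mem_filter.1 hb).1, rfl⟩
          have h4 : (B'.image (fun b => e * b)).card = B'.card :=
            card_image_of_injective _ (mul_right_injective e)
          rw [h3, h4, h2] at h1
          exact h1
        omega

/-- Kneser's theorem, first form -/
theorem kneser1 (A B : Finset G) (hA : A.Nonempty) (hB : B.Nonempty) :
    A.card + B.card ≤ (A * B).card + (F (st (A * B))).card := by
  classical
  set S : Finset (Finset G) := (A * B).powerset.filter (fun C => A.card + B.card ≤ C.card + (F (st C)).card) with hS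
  have hne : S.Nonempty := by
    obtain ⟨a0, ha0⟩ := hA
    obtain ⟨b0, hb0⟩ := hB
    obtain ⟨C, hC, -, hCc⟩ := kemp B.card A B a0 b0 rfl ha0 hb0
    exact ⟨C, mem_filter.2 ⟨mem_powerset.2 hC, hCc⟩⟩
  obtain ⟨C, hCS, hmax⟩ := exists_max_image S (fun C => C.card) hne
  obtain ⟨hCsub, hCc⟩ := mem_filter.1 hCS
  rw [mem_powerset] at hCsub
  by_cases heq : A * B ⊆ C
  · rw [← subset_antisymm hCsub heq]
    exact hCc
  · exfalso
    rw [not_subset] at heq
    obtain ⟨x, hx, hxC⟩ := heq
    rw [mem_mul] at hx
    obtain ⟨a, ha, b, hb, rfl⟩ := hx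
    obtain ⟨D, hD, hD0, hDc⟩ := kemp B.card A B a b rfl ha hb
    have hu := union_st C D _ hCc hDc
    have hCD : C ∪ D ∈ S := mem_filter.2 ⟨mem_powerset.2 (union_subset hCsub hD), hu⟩
    have := hmax _ hCD
    have hlt : C.card < (C ∪ D).card := by
      apply card_lt_card
      exact ⟨subset_union_left, fun hsub => hxC (hsub (mem_union_right _ hD0))⟩
    omega

/-- Kneser's theorem -/
theorem kneser2 (A B : Finset G) (hA : A.Nonempty) (hB : B.Nonempty) :
    (A * F (st (A * B))).card + (B * F (st (A * B))).card ≤ (A * B).card + (F (st (A * B))).card := by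
  set H := st (A * B) with hH
  have hF : (F H * F H) = F H := by
    ext x
    rw [mem_mul]
    constructor
    · rintro ⟨a, ha, b, hb, rfl⟩
      exact mem_F.2 (H.mul_mem (mem_F.1 ha) (mem_F.1 hb))
    · intro hx
      exact ⟨x, hx, 1, mem_F.2 H.one_mem, mul_one x⟩
  have hAB : A * B * F H = A * B := by
    ext x
    constructor
    · intro hx
      obtain ⟨y, hy, h, hh, rfl⟩ := mem_mul.1 hx
      rw [mul_comm y h]
      exact ((mem_F.1 hh) y).1 hy
    · intro hx
      exact mem_mul.2 ⟨x, hx, 1, mem_F.2 H.one_mem, mul_one x⟩
  have hkey : (A * F H) * (B * F H) = A * B := by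
    rw [mul_mul_mul_comm, hF, hAB]
  have hne : (F H).Nonempty := ⟨1, mem_F.2 H.one_mem⟩
  have h := kneser1 (A * F H) (B * F H) (hA.mul hne) (hB.mul hne)
  rw [hkey] at h
  exact h

end Pool.Agent.Lib.MP_42948a_nt.KC
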