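import Mathlib

/-!
# The removal lemma for one equation in a finite abelian group
-/

set_option linter.unusedSectionVars false

namespace Pool.Agent.Lib.MP_42948a_nt.KC

open Finset SimpleGraph SimpleGraph.TripartiteFromTriangles Sum3

theorem bad_count {G : Type} [CommGroup G] [Fintype G] [DecidableEq G] {V : Type} [Fintype V]
    [DecidableEq V] (Γ Γ' : SimpleGraph V) [DecidableRel Γ.Adj] [DecidableRel Γ'.Adj]
    (hle : Γ' ≤ Γ) (P Q : G → V) (hP : Function.Injective P) (hQ : Function.Injective Q)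
    (hPQ : ∀ u v, P u ≠ Q v) (τ : G → G → G) (hτ : ∀ x y u, τ x u = τ y u → x = y) (A : Finset G) :
    ((A.filter (fun x => ¬ (3 * (univ.filter (fun u => Γ.Adj (P u) (Q (τ x u)) ∧
      ¬ Γ'.Adj (P u) (Q (τ x u)))).card < Fintype.card G))).card : ℝ) * (Fintype.card G : ℝ) ≤
      3 * ((Γ.edgeFinset.card : ℝ) - (Γ'.edgeFinset.card : ℝ)) := by
  set R : G → Finset G := fun x => univ.filter (fun u => Γ.Adj (P u) (Q (τ x u)) ∧
      ¬ Γ'.Adj (P u) (Q (τ x u))) with hR
  set B : Finset G := A.filter (fun x => ¬ (3 * (R x).card < Fintype.card G)) with hB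
  have h1 : B.card * Fintype.card G ≤ 3 * (B.sigma (fun x => R x)).card := by
    rw [card_sigma, mul_sum]
    rw [← smul_eq_mul, ← sum_const]
    apply sum_le_sum
    intro x hx
    have := (mem_filter.1 hx).2
    omega
  have h2 : (B.sigma (fun x => R x)).card ≤ (Γ.edgeFinset \ Γ'.edgeFinset).card := by
    refine card_le_card_of_injOn (fun z => s(P z.2, Q (τ z.1 z.2))) ?_ ?_
    · rintro ⟨x, u⟩ hz
      rw [mem_coe, mem_sigma] at hz
      have hz2 := (mem_filter.1 hz.2).2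
      simp only [mem_coe, mem_sdiff, mem_edgeFinset, mem_edgeSet]
      exact hz2
    · rintro ⟨x, u⟩ hz ⟨y, v⟩ hw hzw
      simp only [Sym2.eq_iff] at hzw
      rcases hzw with ⟨ha, hb⟩ | ⟨ha, hb⟩
      · have e1 := hP ha
        subst e1
        have e2 := hτ _ _ _ (hQ hb)
        subst e2
        rfl
      · exact absurd ha (hPQ _ _)
  have h3 : (Γ.edgeFinset \ Γ'.edgeFinset).card + Γ'.edgeFinset.card = Γ.edgeFinset.card :=
    card_sdiff_add_card_eq_card (edgeFinset_subset_edgeFinset.2 hle)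
  have h3' : ((Γ.edgeFinset \ Γ'.edgeFinset).card : ℝ) = (Γ.edgeFinset.card : ℝ) - (Γ'.edgeFinset.card : ℝ) := by
    rw [← h3]
    push_cast
    ring
  have h4 : ((B.card * Fintype.card G : ℕ) : ℝ) ≤ ((3 * (Γ.edgeFinset \ Γ'.edgeFinset).card : ℕ) : ℝ) := by
    exact_mod_cast h1.trans (Nat.mul_le_mul_left 3 h2)
  push_cast at h4
  rw [h3'] at h4
  exact h4

/-- the triangles -/
def tri {G : Type} [CommGroup G] [Fintype G] [DecidableEq G] (c : G) (A : Finset G) : Finset (G × G × G) :=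
  univ.filter (fun z => z.1⁻¹ * z.2.1 ∈ A ∧ z.2.1⁻¹ * z.2.2 ∈ A ∧ c * z.2.2⁻¹ * z.1 ∈ A)

theorem mem_tri {G : Type} [CommGroup G] [Fintype G] [DecidableEq G] {c : G} {A : Finset G} {u v w : G} :
    (u, v, w) ∈ tri c A ↔ u⁻¹ * v ∈ A ∧ v⁻¹ * w ∈ A ∧ c * w⁻¹ * u ∈ A := by
  unfold tri
  rw [mem_filter]
  exact ⟨fun h => h.2, fun h => ⟨mem_univ _, h⟩⟩

theorem card_clique_le {G : Type} [CommGroup G] [Fintype G] [DecidableEq G] (c : G) (A : Finset G) :
    ((graph (tri c A)).cliqueFinset 3).card ≤ (tri c A).card := by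
  have hsub : (graph (tri c A)).cliqueFinset 3 ⊆ (tri c A).image toTriangle := by
    intro s hs
    rw [mem_cliqueFinset_iff, is3Clique_iff] at hs
    obtain ⟨x, y, z, hxy, hxz, hyz, rfl⟩ := hs
    obtain ⟨a, b, e, habc, hab, hac, hbc⟩ := graph_triple hxy hxz hyz
    rw [mem_image]
    refine ⟨(a, b, e), ?_, habc⟩
    obtain ⟨c', hc'⟩ := Graph.in₀₁_iff.1 hab
    obtain ⟨b', hb'⟩ := Graph.in₀₂_iff.1 hac
    obtain ⟨a', ha'⟩ := Graph.in₁₂_iff.1 hbc
    exact mem_tri.2 ⟨(mem_tri.1 hc').1, (mem_tri.1 ha').2.1, (mem_tri.1 hb').2.2⟩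
  exact (card_le_card hsub).trans card_image_le

theorem card_tri_le {G : Type} [CommGroup G] [Fintype G] [DecidableEq G] (c : G) (A : Finset G) :
    (tri c A).card ≤ Fintype.card G * ((A ×ˢ A).filter (fun z => c * z.1⁻¹ * z.2⁻¹ ∈ A)).card := by
  rw [← card_univ, ← card_product]
  refine card_le_card_of_injOn (fun z => (z.1, (z.1⁻¹ * z.2.1, z.2.1⁻¹ * z.2.2))) ?_ ?_
  · rintro ⟨u, v, w⟩ hz
    have hz' := mem_tri.1 (mem_coe.1 hz)
    simp only [mem_coe, mem_product, mem_filter, mem_univ, true_and]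
    refine ⟨⟨hz'.1, hz'.2.1⟩, ?_⟩
    have e : c * (u⁻¹ * v)⁻¹ * (v⁻¹ * w)⁻¹ = c * w⁻¹ * u := by
      rw [mul_inv_rev, mul_inv_rev, inv_inv, inv_inv]
      calc c * (v⁻¹ * u) * (w⁻¹ * v) = c * w⁻¹ * u * (v⁻¹ * v) := by
            simp only [mul_comm, mul_left_comm, mul_assoc]
        _ = c * w⁻¹ * u := by rw [inv_mul_cancel, mul_one]
    rw [e]
    exact hz'.2.2
  · rintro ⟨u, v, w⟩ _ ⟨u', v', w'⟩ _ h
    simp only [Prod.mk.injEq] at h
    obtain ⟨h1, h2, h3⟩ := h
    subst h1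
    have e2 := mul_left_cancel h2
    subst e2
    have e3 := mul_left_cancel h3
    subst e3
    rfl

theorem removal (ε : ℝ) (hε : 0 < ε) : ∃ η : ℝ, 0 < η ∧ ∀ (G : Type) [CommGroup G] [Fintype G]
    [DecidableEq G] (c : G) (A : Finset G),
    (((A ×ˢ A).filter (fun z => c * z.1⁻¹ * z.2⁻¹ ∈ A)).card : ℝ) ≤ η * (Fintype.card G : ℝ) ^ 2 →
    ∃ A1 ⊆ A, ∃ A2 ⊆ A, ∃ A3 ⊆ A, ((A \ A1).card : ℝ) ≤ ε * Fintype.card G ∧
      ((A \ A2).card : ℝ) ≤ ε * Fintype.card G ∧ ((A \ A3).card : ℝ) ≤ ε * Fintype.card G ∧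
      ∀ x ∈ A1, ∀ y ∈ A2, ∀ z ∈ A3, x * y * z ≠ c := by
  have hε' : (0 : ℝ) < ε / 27 := by positivity
  have hb := triangleRemovalBound_pos hε'
  refine ⟨triangleRemovalBound (ε / 27), hb, ?_⟩
  intro G _ _ _ c A hT
  have hN : (0 : ℝ) < (Fintype.card G : ℝ) := by
    have : 0 < Fintype.card G := Fintype.card_pos
    exact_mod_cast this
  have hcV : (Fintype.card (G ⊕ G ⊕ G) : ℝ) = 3 * (Fintype.card G : ℝ) := by
    rw [Fintype.card_sum, Fintype.card_sum]
    push_cast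
    ring
  have hcl : (((graph (tri c A)).cliqueFinset 3).card : ℝ) <
      triangleRemovalBound (ε / 27) * (Fintype.card (G ⊕ G ⊕ G) : ℝ) ^ 3 := by
    have h1 : (((graph (tri c A)).cliqueFinset 3).card : ℝ) ≤
        (Fintype.card G : ℝ) * (((A ×ˢ A).filter (fun z => c * z.1⁻¹ * z.2⁻¹ ∈ A)).card : ℝ) := by
      exact_mod_cast (card_clique_le c A).trans (card_tri_le c A)
    rw [hcV]
    have h2 : (Fintype.card G : ℝ) * (((A ×ˢ A).filter (fun z => c * z.1⁻¹ * z.2⁻¹ ∈ A)).card : ℝ) ≤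
        (Fintype.card G : ℝ) * (triangleRemovalBound (ε / 27) * (Fintype.card G : ℝ) ^ 2) :=
      mul_le_mul_of_nonneg_left hT hN.le
    have h3 : 0 < triangleRemovalBound (ε / 27) * (Fintype.card G : ℝ) ^ 3 := by positivity
    nlinarith
  obtain ⟨Γ', hle, hdec, hedge, hfree⟩ := triangle_removal hcl
  have hedge' : (((graph (tri c A)).edgeFinset.card : ℝ) - (Γ'.edgeFinset.card : ℝ)) <
      ε / 27 * (9 * (Fintype.card G : ℝ) ^ 2) := by
    refine lt_of_lt_of_eq hedge ?_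
    push_cast
    rw [hcV]
    ring
  have hinj0 : Function.Injective (in₀ : G → G ⊕ G ⊕ G) := fun a b h => by simpa [in₀] using h
  have hinj1 : Function.Injective (in₁ : G → G ⊕ G ⊕ G) := fun a b h => by simpa [in₁] using h
  have hinj2 : Function.Injective (in₂ : G → G ⊕ G ⊕ G) := fun a b h => by simpa [in₂] using h
  have b1 := bad_count (graph (tri c A)) Γ' hle (in₀ : G → G ⊕ G ⊕ G) in₁ hinj0 hinj1
    (fun u v h => by simp [in₀, in₁] at h) (fun x u => u * x) (fun x y u h => mul_left_cancel h) A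
  have b2 := bad_count (graph (tri c A)) Γ' hle (in₁ : G → G ⊕ G ⊕ G) in₂ hinj1 hinj2
    (fun u v h => by simp [in₁, in₂] at h) (fun x u => u * x) (fun x y u h => mul_left_cancel h) A
  have b3 := bad_count (graph (tri c A)) Γ' hle (in₂ : G → G ⊕ G ⊕ G) in₀ hinj2 hinj0
    (fun u v h => by simp [in₀, in₂] at h) (fun x u => u * x * c⁻¹)
    (fun x y u h => mul_left_cancel (mul_right_cancel h)) A
  have hfin : ∀ k : ℝ, k * (Fintype.card G : ℝ) ≤
      3 * (((graph (tri c A)).edgeFinset.card : ℝ) - (Γ'.edgeFinset.card : ℝ)) → k ≤ ε * Fintype.card G := by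
    intro k hk
    have : k * (Fintype.card G : ℝ) ≤ (ε * Fintype.card G) * (Fintype.card G : ℝ) := by nlinarith
    exact le_of_mul_le_mul_right this hN
  have hsd : ∀ p : G → Prop, ∀ [DecidablePred p], A \ A.filter p = A.filter (fun x => ¬ p x) := by
    intro p _
    ext x
    simp only [mem_sdiff, mem_filter]
    tauto
  refine ⟨_, filter_subset (fun x => 3 * (univ.filter (fun u => (graph (tri c A)).Adj (in₀ u) (in₁ (u * x)) ∧
      ¬ Γ'.Adj (in₀ u) (in₁ (u * x)))).card < Fintype.card G) A,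
    _, filter_subset (fun x => 3 * (univ.filter (fun u => (graph (tri c A)).Adj (in₁ u) (in₂ (u * x)) ∧
      ¬ Γ'.Adj (in₁ u) (in₂ (u * x)))).card < Fintype.card G) A,
    _, filter_subset (fun x => 3 * (univ.filter (fun u => (graph (tri c A)).Adj (in₂ u) (in₀ (u * x * c⁻¹)) ∧
      ¬ Γ'.Adj (in₂ u) (in₀ (u * x * c⁻¹)))).card < Fintype.card G) A, ?_, ?_, ?_, ?_⟩
  · rw [hsd]; exact hfin _ b1
  · rw [hsd]; exact hfin _ b2
  · rw [hsd]; exact hfin _ b3
  · intro x hx y hy z hz hxyz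
    rw [mem_filter] at hx hy hz
    set R1 := univ.filter (fun u : G => (graph (tri c A)).Adj (in₀ u) (in₁ (u * x)) ∧
      ¬ Γ'.Adj (in₀ u) (in₁ (u * x))) with hR1
    set R2 := univ.filter (fun u : G => (graph (tri c A)).Adj (in₁ u) (in₂ (u * y)) ∧
      ¬ Γ'.Adj (in₁ u) (in₂ (u * y))) with hR2
    set R3 := univ.filter (fun u : G => (graph (tri c A)).Adj (in₂ u) (in₀ (u * z * c⁻¹)) ∧
      ¬ Γ'.Adj (in₂ u) (in₀ (u * z * c⁻¹))) with hR3
    have hcover : (univ : Finset G) ⊆ R1 ∪ (R2.image (fun v => v * x⁻¹) ∪ R3.image (fun w => w * (x * y)⁻¹)) := by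
      intro u _
      have ht : (u, u * x, u * x * y) ∈ tri c A := by
        rw [mem_tri]
        refine ⟨?_, ?_, ?_⟩
        · rw [inv_mul_cancel_left]; exact hx.1
        · rw [inv_mul_cancel_left]; exact hy.1
        · have e : c * (u * x * y)⁻¹ * u = z := by
            rw [← hxyz]
            calc x * y * z * (u * x * y)⁻¹ * u = (u * x * y) * (u * x * y)⁻¹ * z := by
                  simp only [mul_comm, mul_left_comm, mul_assoc]
              _ = z := by rw [mul_inv_cancel, one_mul]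
          rw [e]; exact hz.1
      by_contra hcon
      simp only [mem_union, mem_image, not_or, not_exists, not_and] at hcon
      obtain ⟨hc1, hc2, hc3⟩ := hcon
      have g1 : Γ'.Adj (in₀ u) (in₁ (u * x)) := by
        by_contra hn
        exact hc1 (mem_filter.2 ⟨mem_univ _, Graph.in₀₁_iff.2 ⟨_, ht⟩, hn⟩)
      have g2 : Γ'.Adj (in₁ (u * x)) (in₂ (u * x * y)) := by
        by_contra hn
        exact hc2 (u * x) (mem_filter.2 ⟨mem_univ _, Graph.in₁₂_iff.2 ⟨_, ht⟩, hn⟩)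
          (mul_inv_cancel_right u x)
      have ez : u * x * y * z * c⁻¹ = u := by
        rw [← hxyz]
        calc u * x * y * z * (x * y * z)⁻¹ = u * ((x * y * z) * (x * y * z)⁻¹) := by
              simp only [mul_assoc]
          _ = u := by rw [mul_inv_cancel, mul_one]
      have g3 : Γ'.Adj (in₂ (u * x * y)) (in₀ u) := by
        by_contra hn
        refine hc3 (u * x * y) (mem_filter.2 ⟨mem_univ _, ?_, ?_⟩) ?_
        · rw [ez]; exact Graph.in₂₀_iff.2 ⟨_, ht⟩
        · rw [ez]; exact hn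
        · rw [mul_assoc u x y, mul_inv_cancel_right]
      have hcliq : Γ'.IsNClique 3 {in₀ u, in₁ (u * x), in₂ (u * x * y)} := by
        rw [is3Clique_triple_iff]
        exact ⟨g1, g3.symm, g2⟩
      exact hfree _ hcliq
    have hcard := card_le_card hcover
    have hc1 := card_union_le R1 (R2.image (fun v => v * x⁻¹) ∪ R3.image (fun w => w * (x * y)⁻¹))
    have hc2 := card_union_le (R2.image (fun v => v * x⁻¹)) (R3.image (fun w => w * (x * y)⁻¹))
    have hc3 : (R2.image (fun v => v * x⁻¹)).card ≤ R2.card := card_image_le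
    have hc4 : (R3.image (fun w => w * (x * y)⁻¹)).card ≤ R3.card := card_image_le
    rw [card_univ] at hcard
    have k1 := hx.2
    have k2 := hy.2
    have k3 := hz.2
    omega

end Pool.Agent.Lib.MP_42948a_nt.KC
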