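import Pool.Agent.Lib.MP_42948a_nt.KC.Quot
import Pool.Agent.Lib.MP_42948a_nt.KC.Removal

/-!
# The structure theorem for functions of mean above one third
-/

set_option linter.unusedSectionVars false

namespace Pool.Agent.Lib.MP_42948a_nt.KC

open Finset
open scoped Pointwise

open Classical in
/-- in one coset of the support the set is large -/
theorem coset_part {G : Type} [CommGroup G] [Fintype G] [DecidableEq G] (H : Subgroup G)
    (M : Finset (G ⧸ H)) (hM : 3 * M.card = H.index + 1) (g : G → ℝ) (hg1 : ∀ x, g x ≤ 1)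
    (θ : ℝ) (hθ : (1 / 3 + θ) * (Fintype.card G : ℝ) ≤
      ∑ x ∈ univ.filter (fun x : G => (x : G ⧸ H) ∈ M), g x) (z : G ⧸ H) (hz : z ∈ M) :
    θ * (Fintype.card G : ℝ) + 2 / 3 * ((F H).card : ℝ) ≤
      ∑ x ∈ univ.filter (fun x : G => (x : G ⧸ H) = z), g x := by
  have hN : (Fintype.card G : ℝ) = (H.index : ℝ) * ((F H).card : ℝ) := by
    exact_mod_cast card_eq_index H
  have hM' : 3 * (M.card : ℝ) = (H.index : ℝ) + 1 := by exact_mod_cast hM
  have hsplit : ∑ x ∈ univ.filter (fun x : G => (x : G ⧸ H) ∈ M), g x =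
      ∑ x ∈ univ.filter (fun x : G => (x : G ⧸ H) = z), g x +
      ∑ x ∈ univ.filter (fun x : G => (x : G ⧸ H) ∈ M.erase z), g x := by
    rw [← sum_union]
    · apply sum_congr _ (fun _ _ => rfl)
      ext x
      simp only [mem_filter, mem_univ, true_and, mem_union, mem_erase]
      constructor
      · intro h
        by_cases hx : (x : G ⧸ H) = z
        · exact Or.inl hx
        · exact Or.inr ⟨hx, h⟩
      · rintro (h | h)
        · rw [h]; exact hz
        · exact h.2
    · rw [disjoint_left]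
      intro x hx hx'
      simp only [mem_filter, mem_univ, true_and, mem_erase] at hx hx'
      exact hx'.1 hx
  have hrest : ∑ x ∈ univ.filter (fun x : G => (x : G ⧸ H) ∈ M.erase z), g x ≤
      ((M.card : ℝ) - 1) * ((F H).card : ℝ) := by
    refine (sum_le_card_nsmul _ _ 1 (fun x _ => hg1 x)).trans ?_
    rw [preim_card, card_erase_of_mem hz, nsmul_eq_mul, mul_one, Nat.cast_mul,
      Nat.cast_sub (card_pos.2 ⟨z, hz⟩), Nat.cast_one]
  rw [hsplit, hN] at hθ
  rw [hN]
  have : ((M.card : ℝ) - 1) * ((F H).card : ℝ) = ((H.index : ℝ) - 2) / 3 * ((F H).card : ℝ) := by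
    congr 1
    linarith
  rw [this] at hrest
  nlinarith

open Classical in
theorem comb3 (δ : ℝ) (hδ : 0 < δ) : ∃ N0 : ℕ, ∀ κ : ℝ, 0 < κ → ∃ η : ℝ, 0 < η ∧
    ∀ (G : Type) [CommGroup G] [Fintype G] [DecidableEq G] (c : G) (f : G → ℝ),
    (∀ x, 0 ≤ f x) → (∀ x, f x ≤ 1) → (1 / 3 + δ) * (Fintype.card G : ℝ) ≤ ∑ x, f x →
    ∑ x, ∑ y, f x * f y * f (c * x⁻¹ * y⁻¹) ≤ η * (Fintype.card G : ℝ) ^ 2 →
    ∃ (H : Subgroup G) (M : Finset (G ⧸ H)), H.index ≤ N0 ∧ 3 * M.card = H.index + 1 ∧
      (M * M).card = 2 * M.card - 1 ∧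
      (∀ a ∈ M, ∀ b ∈ M, ∀ e ∈ M, a * b * e ≠ (c : G ⧸ H)) ∧
      (∀ y : G ⧸ H, (∀ a ∈ M, ∀ b ∈ M, a * b * y ≠ (c : G ⧸ H)) → y ∈ M) ∧
      ∑ x ∈ univ.filter (fun x : G => (x : G ⧸ H) ∉ M), f x ≤ κ * (Fintype.card G : ℝ) ∧
      ∀ z ∈ M, 2 / 3 * (Nat.card H : ℝ) ≤ ∑ x ∈ univ.filter (fun x : G => (x : G ⧸ H) = z), f x := by
  refine ⟨⌊2 / (3 * δ)⌋₊, fun κ hκ => ?_⟩
  obtain ⟨t, ht0, htδ, htκ⟩ : ∃ t : ℝ, 0 < t ∧ t ≤ δ / 4 ∧ t ≤ κ / 2 :=
    ⟨min (δ / 4) (κ / 2), lt_min (by linarith) (by linarith), min_le_left _ _, min_le_right _ _⟩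
  obtain ⟨η, hη, hrem⟩ := removal t ht0
  refine ⟨t ^ 3 * η, by positivity, ?_⟩
  intro G _ _ _ c f hf0 hf1 hsum htrip
  have hNpos : (0 : ℝ) < (Fintype.card G : ℝ) := by
    have : 0 < Fintype.card G := Fintype.card_pos
    exact_mod_cast this
  set A : Finset G := univ.filter (fun x => t ≤ f x) with hA
  have hmemA : ∀ x, x ∈ A ↔ t ≤ f x := fun x => by simp [hA]
  -- number of triples
  have hT : (((A ×ˢ A).filter (fun z => c * z.1⁻¹ * z.2⁻¹ ∈ A)).card : ℝ) ≤
      η * (Fintype.card G : ℝ) ^ 2 := by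
    have h1 : t ^ 3 * (((A ×ˢ A).filter (fun z => c * z.1⁻¹ * z.2⁻¹ ∈ A)).card : ℝ) ≤
        ∑ x, ∑ y, f x * f y * f (c * x⁻¹ * y⁻¹) := by
      have h2 : ∑ x, ∑ y, f x * f y * f (c * x⁻¹ * y⁻¹) =
          ∑ z : G × G, f z.1 * f z.2 * f (c * z.1⁻¹ * z.2⁻¹) := by
        rw [Fintype.sum_prod_type]
      rw [h2]
      have h3 : t ^ 3 * (((A ×ˢ A).filter (fun z => c * z.1⁻¹ * z.2⁻¹ ∈ A)).card : ℝ) =
          ∑ z ∈ (A ×ˢ A).filter (fun z => c * z.1⁻¹ * z.2⁻¹ ∈ A), t ^ 3 := by
        rw [sum_const, nsmul_eq_mul]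
        ring
      rw [h3]
      refine (sum_le_sum (g := fun z : G × G => f z.1 * f z.2 * f (c * z.1⁻¹ * z.2⁻¹)) ?_).trans
        (sum_le_sum_of_subset_of_nonneg (subset_univ _) ?_)
      · intro z hz
        rw [mem_filter, mem_product] at hz
        obtain ⟨⟨ha, hb⟩, hc⟩ := hz
        rw [hmemA] at ha hb hc
        have e : t ^ 3 = t * t * t := by ring
        rw [e]
        exact mul_le_mul (mul_le_mul ha hb ht0.le (hf0 _)) hc ht0.le (mul_nonneg (hf0 _) (hf0 _))
      · intro z _ _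
        exact mul_nonneg (mul_nonneg (hf0 _) (hf0 _)) (hf0 _)
    have h4 : t ^ 3 * (((A ×ˢ A).filter (fun z => c * z.1⁻¹ * z.2⁻¹ ∈ A)).card : ℝ) ≤
        t ^ 3 * (η * (Fintype.card G : ℝ) ^ 2) := by
      refine h1.trans (htrip.trans_eq ?_)
      ring
    exact le_of_mul_le_mul_left h4 (by positivity)
  obtain ⟨X, hXA, Y, hYA, Z, hZA, hX, hY, hZ, hmiss⟩ := hrem G c A hT
  -- the size of `A`
  have hAcard : (1 / 3 + δ - t) * (Fintype.card G : ℝ) ≤ (A.card : ℝ) := by
    have h1 : ∑ x, f x = ∑ x ∈ A, f x + ∑ x ∈ Aᶜ, f x := (sum_add_sum_compl A f).symm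
    have h2 : ∑ x ∈ A, f x ≤ (A.card : ℝ) := by
      refine (sum_le_card_nsmul _ _ 1 (fun x _ => hf1 x)).trans ?_
      rw [nsmul_eq_mul, mul_one]
    have h3 : ∑ x ∈ Aᶜ, f x ≤ t * (Fintype.card G : ℝ) := by
      refine (sum_le_card_nsmul _ _ t (fun x hx => ?_)).trans ?_
      · rw [mem_compl, hmemA, not_le] at hx
        exact hx.le
      · rw [nsmul_eq_mul, mul_comm]
        refine mul_le_mul_of_nonneg_left ?_ ht0.le
        exact_mod_cast card_le_univ _
    linarith
  have hbig : ∀ B : Finset G, B ⊆ A → ((A \ B).card : ℝ) ≤ t * (Fintype.card G : ℝ) →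
      (1 / 3 + δ / 2) * (Fintype.card G : ℝ) ≤ (B.card : ℝ) := by
    intro B hB hc
    have h1 : ((A \ B).card : ℝ) = (A.card : ℝ) - (B.card : ℝ) := by
      rw [cast_card_sdiff hB]
    nlinarith
  have hXb := hbig X hXA hX
  have hYb := hbig Y hYA hY
  have hZb := hbig Z hZA hZ
  have hthird : ∀ B : Finset G, (1 / 3 + δ / 2) * (Fintype.card G : ℝ) ≤ (B.card : ℝ) →
      Fintype.card G < 3 * B.card := by
    intro B hB
    have : (Fintype.card G : ℝ) < 3 * (B.card : ℝ) := by nlinarith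
    exact_mod_cast this
  obtain ⟨H, hmX, hmY, hmZ, hprod, hkey⟩ := three c X Y Z (hthird X hXb) (hthird Y hYb) (hthird Z hZb) hmiss
  have hN : (Fintype.card G : ℝ) = (H.index : ℝ) * ((F H).card : ℝ) := by
    exact_mod_cast card_eq_index H
  have hFpos : (1 : ℝ) ≤ ((F H).card : ℝ) := by exact_mod_cast F_pos H
  -- every coset of the image of `B` contains many elements of `B`
  have hfill : ∀ B : Finset G, (1 / 3 + δ / 2) * (Fintype.card G : ℝ) ≤ (B.card : ℝ) →
      3 * (B.image (fun x : G => (x : G ⧸ H))).card = H.index + 1 →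
      ∀ z ∈ B.image (fun x : G => (x : G ⧸ H)),
        δ / 2 * (Fintype.card G : ℝ) < ((B.filter (fun x : G => (x : G ⧸ H) = z)).card : ℝ) := by
    intro B hB hm z hz
    have h := coset_part H (B.image (fun x : G => (x : G ⧸ H))) hm (fun x => if x ∈ B then 1 else 0)
      (fun x => by split_ifs <;> norm_num) (δ / 2) ?_ z hz
    · rw [sum_boole] at h
      have e : (univ.filter (fun x : G => (x : G ⧸ H) = z)).filter (fun x => x ∈ B) =
          B.filter (fun x : G => (x : G ⧸ H) = z) := by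
        ext x
        simp only [mem_filter, mem_univ, true_and]
        exact and_comm
      rw [e] at h
      linarith
    · refine hB.trans (le_of_eq ?_)
      rw [sum_boole]
      congr 2
      ext x
      simp only [mem_filter, mem_univ, true_and]
      exact ⟨fun h => ⟨mem_image_of_mem _ h, h⟩, fun h => h.2⟩
  have hsubM : ∀ B D : Finset G, B ⊆ A → ((A \ D).card : ℝ) ≤ t * (Fintype.card G : ℝ) →
      (1 / 3 + δ / 2) * (Fintype.card G : ℝ) ≤ (B.card : ℝ) →
      3 * (B.image (fun x : G => (x : G ⧸ H))).card = H.index + 1 →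
      3 * (D.image (fun x : G => (x : G ⧸ H))).card = H.index + 1 →
      B.image (fun x : G => (x : G ⧸ H)) = D.image (fun x : G => (x : G ⧸ H)) := by
    intro B D hBA hD hB hmB hmD
    apply eq_of_subset_of_card_le
    · intro z hz
      by_contra hzD
      have h1 := hfill B hB hmB z hz
      have h2 : B.filter (fun x : G => (x : G ⧸ H) = z) ⊆ A \ D := by
        intro x hx
        rw [mem_filter] at hx
        rw [mem_sdiff]
        refine ⟨hBA hx.1, fun hxD => hzD ?_⟩
        rw [← hx.2]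
        exact mem_image_of_mem _ hxD
      have h3 : ((B.filter (fun x : G => (x : G ⧸ H) = z)).card : ℝ) ≤ ((A \ D).card : ℝ) := by
        exact_mod_cast card_le_card h2
      nlinarith
    · omega
  have hXY := hsubM X Y hXA hY hXb hmX hmY
  have hXZ := hsubM X Z hXA hZ hXb hmX hmZ
  rw [← hXY, ← hXZ] at hkey
  rw [← hXY] at hprod
  set M := X.image (fun x : G => (x : G ⧸ H)) with hM
  have hMne : M.Nonempty := by rw [← card_pos]; omega
  -- the product set
  have hMM1 : (M * M).card + M.card ≤ H.index := by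
    have h1 : (M.image (fun e => (c : G ⧸ H) * e⁻¹)).card = M.card :=
      card_image_of_injective _ (fun a b hab => inv_injective (mul_left_cancel hab))
    rw [← h1, ← card_union_of_disjoint, Subgroup.index_eq_card, Nat.card_eq_fintype_card, ← card_univ]
    · exact card_le_card (subset_univ _)
    · rw [disjoint_left]
      intro w hw hw'
      obtain ⟨e, he, rfl⟩ := mem_image.1 hw'
      obtain ⟨a, ha, b, hb, hab⟩ := mem_mul.1 hw
      exact hkey a ha b hb e he (by rw [hab, inv_mul_cancel_right])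
  have hcardeq : (M * M).card = 2 * M.card - 1 := by omega
  have hsupp : ∑ x ∈ univ.filter (fun x : G => (x : G ⧸ H) ∉ M), f x ≤ 2 * t * (Fintype.card G : ℝ) := by
    have h1 : ∀ x ∈ univ.filter (fun x : G => (x : G ⧸ H) ∉ M),
        f x ≤ t + (if x ∈ A \ X then 1 else 0) := by
      intro x hx
      rw [mem_filter] at hx
      by_cases hxA : x ∈ A
      · have hxX : x ∉ X := fun h => hx.2 (mem_image_of_mem _ h)
        rw [if_pos (mem_sdiff.2 ⟨hxA, hxX⟩)]
        have := hf1 x
        linarith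
      · rw [if_neg (fun h => hxA (mem_sdiff.1 h).1)]
        rw [hmemA, not_le] at hxA
        linarith
    refine (sum_le_sum h1).trans ?_
    refine (sum_le_sum_of_subset_of_nonneg (subset_univ _) (fun x _ _ => ?_)).trans ?_
    · split_ifs <;> linarith
    · rw [sum_add_distrib, sum_const, sum_boole, nsmul_eq_mul, card_univ]
      have e : univ.filter (fun x => x ∈ A \ X) = A \ X := by
        ext x
        simp
      rw [e]
      linarith
  refine ⟨H, M, ?_, hmX, hcardeq, hkey, ?_, ?_, ?_⟩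
  · -- the index is bounded
    apply Nat.le_floor
    rw [le_div_iff₀ (by positivity)]
    have h1 : (X.card : ℝ) ≤ (M.card : ℝ) * ((F H).card : ℝ) := by
      have : X.card ≤ M.card * (F H).card := by
        rw [hM, ← sat_card]
        exact card_le_card (fun x hx => mem_mul.2 ⟨x, hx, 1, mem_F.2 H.one_mem, mul_one x⟩)
      exact_mod_cast this
    have h2 : 3 * (M.card : ℝ) = (H.index : ℝ) + 1 := by exact_mod_cast hmX
    have h3 : (1 / 3 + δ / 2) * (H.index : ℝ) * ((F H).card : ℝ) ≤ (M.card : ℝ) * ((F H).card : ℝ) := by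
      have := hXb.trans h1
      rw [hN] at this
      linarith
    have h4 := le_of_mul_le_mul_right h3 (by linarith)
    nlinarith
  · -- the complement of `c (M M)⁻¹` is `M`
    intro y hy
    by_contra hyM
    have h1 : ((insert y M).image (fun e => (c : G ⧸ H) * e⁻¹)).card = M.card + 1 := by
      rw [card_image_of_injective _ (fun a b hab => inv_injective (mul_left_cancel hab)),
        card_insert_of_notMem hyM]
    have h2 : (M * M).card + (M.card + 1) ≤ H.index := by
      rw [← h1, ← card_union_of_disjoint, Subgroup.index_eq_card, Nat.card_eq_fintype_card, ← card_univ]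
      · exact card_le_card (subset_univ _)
      · rw [disjoint_left]
        intro w hw hw'
        obtain ⟨e, he, rfl⟩ := mem_image.1 hw'
        obtain ⟨a, ha, b, hb, hab⟩ := mem_mul.1 hw
        rcases mem_insert.1 he with rfl | he
        · exact hy a ha b hb (by rw [hab, inv_mul_cancel_right])
        · exact hkey a ha b hb e he (by rw [hab, inv_mul_cancel_right])
    omega
  · -- the support
    exact hsupp.trans (mul_le_mul_of_nonneg_right (by linarith) hNpos.le)
  · intro z hz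
    have hin : (1 / 3 + δ / 2) * (Fintype.card G : ℝ) ≤
        ∑ x ∈ univ.filter (fun x : G => (x : G ⧸ H) ∈ M), f x := by
      have h1 : ∑ x, f x = ∑ x ∈ univ.filter (fun x : G => (x : G ⧸ H) ∈ M), f x +
          ∑ x ∈ univ.filter (fun x : G => (x : G ⧸ H) ∉ M), f x :=
        (sum_filter_add_sum_filter_not _ _ _).symm
      nlinarith
    have h := coset_part H M hmX f hf1 (δ / 2) hin z hz
    rw [card_F] at h
    have : 0 ≤ δ / 2 * (Fintype.card G : ℝ) := by positivity
    linarith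

end Pool.Agent.Lib.MP_42948a_nt.KC
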