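import Pool.Agent.Lib.MP_42948a_nt.KC.Kneser

/-!
# Kneser's theorem in the quotient: three sets of density above one third
-/

set_option linter.unusedSectionVars false

namespace Pool.Agent.Lib.MP_42948a_nt.KC

open Finset
open scoped Pointwise

variable {G : Type} [CommGroup G] [Fintype G] [DecidableEq G]

open Classical in
theorem fib_card (H : Subgroup G) (z : G ⧸ H) :
    (univ.filter (fun x : G => (x : G ⧸ H) = z)).card = (F H).card := by
  obtain ⟨g, rfl⟩ := QuotientGroup.mk_surjective z
  symm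
  refine card_bij (fun h _ => g * h) ?_ ?_ ?_
  · intro h hh
    rw [mem_filter]
    refine ⟨mem_univ _, ?_⟩
    rw [eq_comm, QuotientGroup.eq, inv_mul_cancel_left]
    exact mem_F.1 hh
  · intro a _ b _ hab
    exact mul_left_cancel hab
  · intro x hx
    rw [mem_filter] at hx
    refine ⟨g⁻¹ * x, mem_F.2 ?_, mul_inv_cancel_left g x⟩
    exact QuotientGroup.eq.1 hx.2.symm

open Classical in
theorem preim_card (H : Subgroup G) (S : Finset (G ⧸ H)) :
    (univ.filter (fun x : G => (x : G ⧸ H) ∈ S)).card = S.card * (F H).card := by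
  have h := card_eq_sum_card_fiberwise (s := univ.filter (fun x : G => (x : G ⧸ H) ∈ S)) (t := S)
    (f := fun x : G => (x : G ⧸ H)) (fun x hx => by simpa using hx)
  rw [h, ← smul_eq_mul, ← sum_const]
  apply sum_congr rfl
  intro z hz
  rw [← fib_card H z]
  congr 1
  ext x
  simp only [mem_filter, mem_univ, true_and]
  exact ⟨fun h => h.2, fun h => ⟨h ▸ hz, h⟩⟩

open Classical in
theorem sat_eq (H : Subgroup G) (X : Finset G) :
    X * F H = univ.filter (fun x : G => (x : G ⧸ H) ∈ X.image (fun x : G => (x : G ⧸ H))) := by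
  ext y
  rw [mem_filter, mem_mul]
  constructor
  · rintro ⟨x, hx, h, hh, rfl⟩
    refine ⟨mem_univ _, mem_image.2 ⟨x, hx, ?_⟩⟩
    rw [QuotientGroup.eq, inv_mul_cancel_left]
    exact mem_F.1 hh
  · rintro ⟨-, hy⟩
    obtain ⟨x, hx, hxy⟩ := mem_image.1 hy
    exact ⟨x, hx, x⁻¹ * y, mem_F.2 (QuotientGroup.eq.1 hxy), mul_inv_cancel_left x y⟩

open Classical in
theorem sat_card (H : Subgroup G) (X : Finset G) :
    (X * F H).card = (X.image (fun x : G => (x : G ⧸ H))).card * (F H).card := by
  rw [sat_eq, preim_card]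

theorem st_sat (C : Finset G) : C * F (st C) = C := by
  ext x
  constructor
  · intro hx
    obtain ⟨y, hy, h, hh, rfl⟩ := mem_mul.1 hx
    rw [mul_comm y h]
    exact ((mem_F.1 hh) y).1 hy
  · intro hx
    exact mem_mul.2 ⟨x, hx, 1, mem_F.2 (st C).one_mem, mul_one x⟩

theorem card_eq_index (H : Subgroup G) : Fintype.card G = H.index * (F H).card := by
  rw [card_F, ← Nat.card_eq_fintype_card, Nat.mul_comm]
  exact H.card_mul_index.symm

open Classical in
/-- one third plus: three sets whose product misses `c` -/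
theorem three (c : G) (X Y Z : Finset G) (hX : Fintype.card G < 3 * X.card)
    (hY : Fintype.card G < 3 * Y.card) (hZ : Fintype.card G < 3 * Z.card)
    (hc : ∀ x ∈ X, ∀ y ∈ Y, ∀ z ∈ Z, x * y * z ≠ c) :
    ∃ H : Subgroup G,
      3 * (X.image (fun x : G => (x : G ⧸ H))).card = H.index + 1 ∧
      3 * (Y.image (fun x : G => (x : G ⧸ H))).card = H.index + 1 ∧
      3 * (Z.image (fun x : G => (x : G ⧸ H))).card = H.index + 1 ∧
      (X.image (fun x : G => (x : G ⧸ H))).card + (Y.image (fun x : G => (x : G ⧸ H))).card ≤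
        (X.image (fun x : G => (x : G ⧸ H)) * Y.image (fun x : G => (x : G ⧸ H))).card + 1 ∧
      ∀ a ∈ X.image (fun x : G => (x : G ⧸ H)), ∀ b ∈ Y.image (fun x : G => (x : G ⧸ H)),
        ∀ e ∈ Z.image (fun x : G => (x : G ⧸ H)), a * b * e ≠ (c : G ⧸ H) := by
  set H := st (X * Y) with hH
  have hXne : X.Nonempty := by rw [← card_pos]; omega
  have hYne : Y.Nonempty := by rw [← card_pos]; omega
  have hkey : ∀ a ∈ X.image (fun x : G => (x : G ⧸ H)), ∀ b ∈ Y.image (fun x : G => (x : G ⧸ H)),
        ∀ e ∈ Z.image (fun x : G => (x : G ⧸ H)), a * b * e ≠ (c : G ⧸ H) := by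
    intro a ha b hb e he
    obtain ⟨x, hx, rfl⟩ := mem_image.1 ha
    obtain ⟨y, hy, rfl⟩ := mem_image.1 hb
    obtain ⟨z, hz, rfl⟩ := mem_image.1 he
    intro hcon
    simp only [← QuotientGroup.mk_mul] at hcon
    rw [QuotientGroup.eq] at hcon
    have hmem : (x * y * z)⁻¹ * c * (x * y) ∈ X * Y := (hcon (x * y)).1 (mul_mem_mul hx hy)
    obtain ⟨x', hx', y', hy', hxy⟩ := mem_mul.1 hmem
    refine hc x' hx' y' hy' z hz ?_
    rw [hxy]
    calc (x * y * z)⁻¹ * c * (x * y) * z = (x * y * z)⁻¹ * (x * y * z) * c := by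
          simp only [mul_comm, mul_left_comm, mul_assoc]
      _ = c := by rw [inv_mul_cancel, one_mul]
  have hkn := kneser2 X Y hXne hYne
  rw [← hH, sat_card, sat_card] at hkn
  have hpos := F_pos H
  have hprod : (X.image (fun x : G => (x : G ⧸ H))).card + (Y.image (fun x : G => (x : G ⧸ H))).card ≤
        (X.image (fun x : G => (x : G ⧸ H)) * Y.image (fun x : G => (x : G ⧸ H))).card + 1 := by
    have h1 : (X * Y).card = ((X * Y).image (fun x : G => (x : G ⧸ H))).card * (F H).card := by
      rw [← sat_card, hH, st_sat]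
    have h2 : (X * Y).image (fun x : G => (x : G ⧸ H)) =
        X.image (fun x : G => (x : G ⧸ H)) * Y.image (fun x : G => (x : G ⧸ H)) :=
      Finset.image_mul (QuotientGroup.mk' H)
    rw [h1, h2] at hkn
    refine Nat.le_of_mul_le_mul_right (c := (F H).card) ?_ hpos
    rw [Nat.add_mul, Nat.add_mul, Nat.one_mul]
    exact hkn
  -- the set `c * (X Y)⁻¹` and `Z H` are disjoint
  have hdis : (X * Y).card + (Z * F H).card ≤ Fintype.card G := by
    have h1 : ((X * Y).image (fun w => c * w⁻¹)).card = (X * Y).card :=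
      card_image_of_injective _ (fun a b hab => inv_injective (mul_left_cancel hab))
    rw [← h1, ← card_union_of_disjoint, ← card_univ]
    · exact card_le_card (subset_univ _)
    · rw [disjoint_left]
      intro w hw hw'
      obtain ⟨v, hv, rfl⟩ := mem_image.1 hw
      obtain ⟨x, hx, y, hy, rfl⟩ := mem_mul.1 hv
      obtain ⟨z, hz, h, hh, hzh⟩ := mem_mul.1 hw'
      refine hkey _ (mem_image_of_mem _ hx) _ (mem_image_of_mem _ hy) _ (mem_image_of_mem _ hz) ?_
      simp only [← QuotientGroup.mk_mul]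
      rw [QuotientGroup.eq]
      have e : (x * y * z)⁻¹ * c = h := by
        rw [inv_mul_eq_iff_eq_mul, mul_assoc (x * y), hzh]
        rw [mul_comm c, mul_inv_cancel_left]
      rw [e]
      exact mem_F.1 hh
  rw [sat_card] at hdis
  have hN := card_eq_index H
  have hXs : X.card ≤ (X.image (fun x : G => (x : G ⧸ H))).card * (F H).card := by
    rw [← sat_card]
    exact card_le_card (fun x hx => mem_mul.2 ⟨x, hx, 1, mem_F.2 H.one_mem, mul_one x⟩)
  have hYs : Y.card ≤ (Y.image (fun x : G => (x : G ⧸ H))).card * (F H).card := by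
    rw [← sat_card]
    exact card_le_card (fun x hx => mem_mul.2 ⟨x, hx, 1, mem_F.2 H.one_mem, mul_one x⟩)
  have hZs : Z.card ≤ (Z.image (fun x : G => (x : G ⧸ H))).card * (F H).card := by
    rw [← sat_card]
    exact card_le_card (fun x hx => mem_mul.2 ⟨x, hx, 1, mem_F.2 H.one_mem, mul_one x⟩)
  set mX := (X.image (fun x : G => (x : G ⧸ H))).card with hmX
  set mY := (Y.image (fun x : G => (x : G ⧸ H))).card with hmY
  set mZ := (Z.image (fun x : G => (x : G ⧸ H))).card with hmZ
  have hle : ∀ m k : ℕ, Fintype.card G < 3 * k → k ≤ m * (F H).card → H.index + 1 ≤ 3 * m := by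
    intro m k h1 h2
    have h3 : H.index * (F H).card < 3 * m * (F H).card := by
      rw [← hN, Nat.mul_assoc]
      omega
    exact Nat.lt_of_mul_lt_mul_right h3
  have l1 := hle mX _ hX hXs
  have l2 := hle mY _ hY hYs
  have l3 := hle mZ _ hZ hZs
  have hsum : (mX + mY + mZ) * (F H).card ≤ (H.index + 1) * (F H).card := by
    rw [Nat.add_mul, Nat.add_mul, Nat.add_mul, Nat.one_mul, ← hN]
    omega
  have hsum' := Nat.le_of_mul_le_mul_right hsum hpos
  exact ⟨H, by omega, by omega, by omega, hprod, hkey⟩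

end Pool.Agent.Lib.MP_42948a_nt.KC
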