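import Mathlib

/-!
# Stabilisers of finite sets and a counting inequality
-/

set_option linter.unusedSectionVars false

namespace Pool.Agent.Lib.MP_42948a_nt.KC

open Finset
open scoped Pointwise

variable {G : Type*} [CommGroup G] [Fintype G] [DecidableEq G]

/-- the stabiliser of a finite set -/
def st (C : Finset G) : Subgroup G where
  carrier := {g | ∀ x, x ∈ C ↔ g * x ∈ C}
  one_mem' := by intro x; simp
  mul_mem' := by
    intro a b ha hb x
    rw [mul_assoc, ← ha, ← hb]
  inv_mem' := by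
    intro a ha x
    have := ha (a⁻¹ * x)
    simpa using this.symm

theorem mem_st {C : Finset G} {g : G} : g ∈ st C ↔ ∀ x, x ∈ C ↔ g * x ∈ C := Iff.rfl

theorem mem_st_of {C : Finset G} {g : G} (h : ∀ x ∈ C, g * x ∈ C) : g ∈ st C := by
  have himg : C.image (fun x => g * x) = C := by
    apply Finset.eq_of_subset_of_card_le
    · intro y hy
      obtain ⟨x, hx, rfl⟩ := mem_image.1 hy
      exact h x hx
    · rw [card_image_of_injective _ (mul_right_injective g)]
  rw [mem_st]
  intro x
  refine ⟨h x, fun hx => ?_⟩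
  rw [← himg] at hx
  obtain ⟨y, hy, hyx⟩ := mem_image.1 hx
  have : y = x := mul_left_cancel hyx
  rwa [← this]

open Classical in
/-- the finite set of elements of a subgroup -/
noncomputable def F (H : Subgroup G) : Finset G := univ.filter (fun g => g ∈ H)

theorem mem_F {H : Subgroup G} {g : G} : g ∈ F H ↔ g ∈ H := by
  unfold F
  simp

theorem card_F (H : Subgroup G) : (F H).card = Nat.card H := by
  classical
  rw [Nat.card_eq_fintype_card, Fintype.card_subtype]
  rfl

theorem F_pos (H : Subgroup G) : 1 ≤ (F H).card := card_pos.2 ⟨1, mem_F.2 H.one_mem⟩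

theorem F_mono {H K : Subgroup G} (h : H ≤ K) : (F H).card ≤ (F K).card :=
  card_le_card (fun _ hg => mem_F.2 (h (mem_F.1 hg)))

/-- a nonempty set closed under a subgroup is at least as large as the subgroup -/
theorem card_le_of_inv (L : Subgroup G) (S : Finset G) (hS : ∀ l ∈ L, ∀ x ∈ S, l * x ∈ S)
    (hne : S.Nonempty) : (F L).card ≤ S.card := by
  obtain ⟨x0, hx0⟩ := hne
  refine card_le_card_of_injOn (fun l => l * x0) ?_ ?_
  · intro l hl
    exact hS l (mem_F.1 (by simpa using hl)) x0 hx0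
  · intro a _ b _ hab
    exact mul_right_cancel hab

/-- the counting inequality -/
theorem count_le (H1 H2 : Subgroup G) (P Q : Finset G) (c : G)
    (hP : ∀ h ∈ H2, ∀ x ∈ P, h * x ∈ P) (hQ : ∀ h ∈ H1, ∀ x ∈ Q, h * x ∈ Q) :
    ((F H1).filter (fun h => c * h ∈ P)).card * ((F H2).filter (fun h => c * h ∈ Q)).card ≤
      (F (H1 ⊓ H2)).card * (P ∩ Q).card := by
  rw [← card_product]
  refine card_le_mul_card_image_of_maps_to (f := fun z => c * z.1 * z.2) ?_ _ ?_
  · rintro ⟨h1, h2⟩ hz
    simp only [mem_product, mem_filter, mem_F] at hz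
    obtain ⟨⟨hh1, hc1⟩, hh2, hc2⟩ := hz
    refine mem_inter.2 ⟨?_, ?_⟩
    · have := hP h2 hh2 _ hc1
      have he : c * h1 * h2 = h2 * (c * h1) := by rw [mul_comm]
      rwa [← he] at this
    · have := hQ h1 hh1 _ hc2
      have he : c * h1 * h2 = h1 * (c * h2) := by
        rw [mul_comm c h1, mul_assoc]
      rwa [← he] at this
  · intro y _
    rcases (filter (fun z : G × G => c * z.1 * z.2 = y)
      (((F H1).filter (fun h => c * h ∈ P)) ×ˢ ((F H2).filter (fun h => c * h ∈ Q)))).eq_empty_or_nonempty with he | ⟨⟨k1, k2⟩, hk⟩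
    · rw [he]
      simp
    · simp only [mem_product, mem_filter, mem_F] at hk
      obtain ⟨⟨⟨hk1, -⟩, hk2, -⟩, hk⟩ := hk
      refine card_le_card_of_injOn (fun z => z.1 * k1⁻¹) ?_ ?_
      · rintro ⟨h1, h2⟩ hz
        simp only [coe_filter, mem_product, mem_filter, mem_F, Set.mem_ofPred_eq] at hz
        obtain ⟨⟨⟨hh1, -⟩, hh2, -⟩, hh⟩ := hz
        have e : h1 * k1⁻¹ = k2 * h2⁻¹ := by
          have : c * h1 * h2 = c * k1 * k2 := by rw [hh, hk]
          rw [mul_assoc, mul_assoc] at this
          have := mul_left_cancel this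
          rw [mul_inv_eq_iff_eq_mul, mul_assoc, mul_comm h2⁻¹ k1, ← mul_assoc, eq_mul_inv_iff_mul_eq, this, mul_comm]
        simp only [mem_coe, mem_F, Subgroup.mem_inf]
        exact ⟨H1.mul_mem hh1 (H1.inv_mem hk1), by rw [e]; exact H2.mul_mem hk2 (H2.inv_mem hh2)⟩
      · rintro ⟨h1, h2⟩ hz ⟨g1, g2⟩ hw hzw
        simp only [coe_filter, mem_product, mem_filter, mem_F, Set.mem_ofPred_eq] at hz hw
        have e1 : h1 = g1 := mul_right_cancel hzw
        subst e1
        have e2 : h2 = g2 := mul_left_cancel (hz.2.trans hw.2.symm)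
        rw [e2]

end Pool.Agent.Lib.MP_42948a_nt.KC
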