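import Pool.Agent.Lib.MP_42948a_nt.KC.Stab

/-!
# The union lemma (the induction step of Kneser's theorem)
-/

set_option linter.unusedSectionVars false

namespace Pool.Agent.Lib.MP_42948a_nt.KC

open Finset
open scoped Pointwise

variable {G : Type*} [CommGroup G] [Fintype G] [DecidableEq G]

theorem mid_core {l t u : ℕ} (hu : l ≤ u) (ht : l ≤ t) : l * (u + t) ≤ u * t + l * l := by
  obtain ⟨u', rfl⟩ := Nat.exists_eq_add_of_le hu
  obtain ⟨t', rfl⟩ := Nat.exists_eq_add_of_le ht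
  nlinarith [Nat.zero_le (u' * t')]

theorem core {a b x y s l U V p q : ℕ} (hl : 1 ≤ l) (hls : l ≤ s) (hU : U + p = a) (hV : V + q = b)
    (hlU : l ≤ U) (hlV : l ≤ V) (hp : p = 0 ∨ l ≤ p) (hq : q = 0 ∨ l ≤ q) (h1 : U * V ≤ l * x)
    (h2 : p * q ≤ l * y) (hx : x + s < a) (hy : y + s < b) : b < a := by
  rcases hp with hp | hp
  · exfalso
    subst hp
    have h3 : a * l ≤ l * x := by
      refine le_trans ?_ h1
      rw [← hU, Nat.add_zero]
      exact Nat.mul_le_mul_left _ hlV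
    have h4 : a ≤ x := by
      have : l * a ≤ l * x := by rw [Nat.mul_comm l a]; exact h3
      exact Nat.le_of_mul_le_mul_left this hl
    omega
  · rcases hq with hq | hq
    · subst hq
      have h3 : l * b ≤ l * x := by
        refine le_trans ?_ h1
        rw [← hV, Nat.add_zero]
        exact Nat.mul_le_mul_right _ hlU
      have h4 : b ≤ x := Nat.le_of_mul_le_mul_left h3 hl
      omega
    · rcases le_or_gt p V with hpV | hpV
      · exfalso
        have h3 : U * p ≤ l * x := le_trans (Nat.mul_le_mul_left _ hpV) h1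
        have h4 := mid_core hlU hp
        rw [hU] at h4
        have h5 : l * a ≤ l * (x + l) := by rw [Nat.mul_add]; omega
        have h6 : a ≤ x + l := Nat.le_of_mul_le_mul_left h5 hl
        omega
      · exfalso
        have h3 : V * q ≤ l * y := le_trans (Nat.mul_le_mul_right _ hpV.le) h2
        have h4 := mid_core hlV hq
        rw [hV] at h4
        have h5 : l * b ≤ l * (y + l) := by rw [Nat.mul_add]; omega
        have h6 : b ≤ y + l := Nat.le_of_mul_le_mul_left h5 hl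
        omega

theorem filter_part (H : Subgroup G) (C : Finset G) (c : G) :
    ((F H).filter (fun h => c * h ∈ C)).card + ((F H).filter (fun h => c * h ∈ Cᶜ)).card = (F H).card := by
  have h := card_filter_add_card_filter_not (s := F H) (fun h => c * h ∈ C)
  have e : (F H).filter (fun h => c * h ∈ Cᶜ) = (F H).filter (fun h => ¬ (c * h ∈ C)) := by
    ext h
    simp
  rw [e]
  exact h

theorem st_inv {C : Finset G} : ∀ h ∈ st C, ∀ x ∈ C, h * x ∈ C := fun _ hh x hx => (hh x).1 hx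

theorem st_inv_compl {C : Finset G} : ∀ h ∈ st C, ∀ x ∈ Cᶜ, h * x ∈ Cᶜ := by
  intro h hh x hx
  rw [mem_compl] at hx ⊢
  exact fun hc => hx ((hh x).2 hc)

theorem step (C1 C2 : Finset G) (c : G) (hc2 : c ∈ C2) (hc1 : c ∉ C1)
    (h1 : (C1 ∪ C2).card + (F (st (C1 ∪ C2))).card < C1.card + (F (st C1)).card)
    (h2 : (C1 ∪ C2).card + (F (st (C1 ∪ C2))).card < C2.card + (F (st C2)).card) :
    (F (st C2)).card < (F (st C1)).card := by
  set H1 := st C1 with hH1
  set H2 := st C2 with hH2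
  have hL : H1 ⊓ H2 ≤ st (C1 ∪ C2) := by
    intro g hg
    obtain ⟨hg1, hg2⟩ := Subgroup.mem_inf.1 hg
    apply mem_st_of
    intro x hx
    rcases mem_union.1 hx with hx | hx
    · exact mem_union_left _ ((hg1 x).1 hx)
    · exact mem_union_right _ ((hg2 x).1 hx)
  have hcard1 : (C1 ∪ C2).card = C1.card + (C2 ∩ C1ᶜ).card := by
    have e : C1 ∪ C2 = C1 ∪ (C2 ∩ C1ᶜ) := by
      ext z
      simp only [mem_union, mem_inter, mem_compl]
      tauto
    rw [e, card_union_of_disjoint]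
    rw [disjoint_left]
    intro z hz hz'
    exact (mem_compl.1 (mem_inter.1 hz').2) hz
  have hcard2 : (C1 ∪ C2).card = C2.card + (C2ᶜ ∩ C1).card := by
    have e : C1 ∪ C2 = C2 ∪ (C2ᶜ ∩ C1) := by
      ext z
      simp only [mem_union, mem_inter, mem_compl]
      tauto
    rw [e, card_union_of_disjoint]
    rw [disjoint_left]
    intro z hz hz'
    exact (mem_compl.1 (mem_inter.1 hz').1) hz
  have hU1 : (1 : G) ∈ (F H1).filter (fun h => c * h ∈ C2) := by
    rw [mem_filter, mem_F, mul_one]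
    exact ⟨H1.one_mem, hc2⟩
  have hV1 : (1 : G) ∈ (F H2).filter (fun h => c * h ∈ C1ᶜ) := by
    rw [mem_filter, mem_F, mul_one, mem_compl]
    exact ⟨H2.one_mem, hc1⟩
  have hinv1 : ∀ (D : Finset G), (∀ h ∈ H2, ∀ x ∈ D, h * x ∈ D) → ∀ l ∈ H1 ⊓ H2,
      ∀ x ∈ (F H1).filter (fun h => c * h ∈ D), l * x ∈ (F H1).filter (fun h => c * h ∈ D) := by
    intro D hD l hl x hx
    rw [mem_filter, mem_F] at hx ⊢
    refine ⟨H1.mul_mem (Subgroup.mem_inf.1 hl).1 hx.1, ?_⟩
    rw [mul_left_comm]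
    exact hD l (Subgroup.mem_inf.1 hl).2 _ hx.2
  have hinv2 : ∀ (D : Finset G), (∀ h ∈ H1, ∀ x ∈ D, h * x ∈ D) → ∀ l ∈ H1 ⊓ H2,
      ∀ x ∈ (F H2).filter (fun h => c * h ∈ D), l * x ∈ (F H2).filter (fun h => c * h ∈ D) := by
    intro D hD l hl x hx
    rw [mem_filter, mem_F] at hx ⊢
    refine ⟨H2.mul_mem (Subgroup.mem_inf.1 hl).2 hx.1, ?_⟩
    rw [mul_left_comm]
    exact hD l (Subgroup.mem_inf.1 hl).1 _ hx.2
  refine core (x := (C2 ∩ C1ᶜ).card) (y := (C2ᶜ ∩ C1).card) (s := (F (st (C1 ∪ C2))).card)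
    (F_pos (H1 ⊓ H2)) (F_mono hL) (filter_part H1 C2 c)
    (V := ((F H2).filter (fun h => c * h ∈ C1ᶜ)).card) (q := ((F H2).filter (fun h => c * h ∈ C1)).card)
    (by rw [Nat.add_comm]; exact filter_part H2 C1 c)
    (card_le_of_inv _ _ (hinv1 C2 st_inv) ⟨1, hU1⟩)
    (card_le_of_inv _ _ (hinv2 C1ᶜ st_inv_compl) ⟨1, hV1⟩) ?_ ?_
    (count_le H1 H2 C2 C1ᶜ c st_inv st_inv_compl) (count_le H1 H2 C2ᶜ C1 c st_inv_compl st_inv)
    (by omega) (by omega)
  · rcases ((F H1).filter (fun h => c * h ∈ C2ᶜ)).eq_empty_or_nonempty with he | he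
    · left; rw [he]; rfl
    · right; exact card_le_of_inv _ _ (hinv1 C2ᶜ st_inv_compl) he
  · rcases ((F H2).filter (fun h => c * h ∈ C1)).eq_empty_or_nonempty with he | he
    · left; rw [he]; rfl
    · right; exact card_le_of_inv _ _ (hinv2 C1 st_inv) he

/-- the union lemma -/
theorem union_st (C1 C2 : Finset G) (n : ℕ) (h1 : n ≤ C1.card + (F (st C1)).card)
    (h2 : n ≤ C2.card + (F (st C2)).card) : n ≤ (C1 ∪ C2).card + (F (st (C1 ∪ C2))).card := by
  by_contra hcon
  rw [not_le] at hcon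
  by_cases hs1 : C2 ⊆ C1
  · rw [union_eq_left.2 hs1] at hcon
    omega
  by_cases hs2 : C1 ⊆ C2
  · rw [union_eq_right.2 hs2] at hcon
    omega
  rw [not_subset] at hs1 hs2
  obtain ⟨c, hc, hc'⟩ := hs1
  obtain ⟨d, hd, hd'⟩ := hs2
  have e1 := step C1 C2 c hc hc' (by omega) (by omega)
  have e2 := step C2 C1 d hd hd' (by rw [union_comm]; omega) (by rw [union_comm]; omega)
  omega

end Pool.Agent.Lib.MP_42948a_nt.KC
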